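import Pool.Agent.helper13.UN.SpecG

set_option autoImplicit false

open NumberField Complex

namespace Pool.Agent.UN

variable {K : Type} [Field K] [NumberField K]

lemma GS0_ee_add (x y : ℝ) : ee (x + y) = ee x * ee y := by
  unfold ee
  rw [← Complex.exp_add]
  congr 1
  push_cast
  ring

lemma GS0_ee_int (k : ℤ) : ee (k : ℝ) = 1 := by
  unfold ee
  rw [Complex.exp_eq_one_iff]
  refine ⟨k, ?_⟩
  push_cast
  ring

lemma GS0_et_sub (a b : K) (h : ∃ k : ℤ, Algebra.trace ℚ K (a - b) = k) : et a = et b := by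
  obtain ⟨k, hk⟩ := h
  have h1 : Algebra.trace ℚ K a = (k : ℚ) + Algebra.trace ℚ K b := by
    rw [map_sub] at hk
    linarith
  unfold et
  rw [h1]
  have h2 : (((k : ℚ) + Algebra.trace ℚ K b : ℚ) : ℝ) = (k : ℝ) + ((Algebra.trace ℚ K b : ℚ) : ℝ) := by
    push_cast
    ring
  rw [h2, GS0_ee_add, GS0_ee_int, one_mul]

lemma GS0_et_per (f : Ideal (𝓞 K)) (η : K) (hη : η ∈ Du f) (x y : 𝓞 K) (h : x - y ∈ f) :
    et (η * ((x : 𝓞 K) : K)) = et (η * ((y : 𝓞 K) : K)) := by
  apply GS0_et_sub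
  obtain ⟨k, hk⟩ := hη (x - y) h
  refine ⟨k, ?_⟩
  rw [← hk]
  congr 1
  have h2 : ((x - y : 𝓞 K) : K) = (x : K) - (y : K) := map_sub (algebraMap (𝓞 K) K) x y
  rw [h2]
  ring

omit [NumberField K] in
lemma GS0_ou {f : Ideal (𝓞 K)} (u : 𝓞 K ⧸ f) : Ideal.Quotient.mk f (ou u) = u :=
  Function.surjInv_eq _ u

theorem GS0 : GS0_stmt := by
  intro K _ _ f F hf hF
  refine ⟨fun η hη x y h => GS0_et_per f η hη x y h, ?_, ?_⟩
  · intro η η' h
    unfold gs
    apply finsum_congr
    intro u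
    congr 1
    apply GS0_et_sub
    obtain ⟨k, hk⟩ := h (ou u) Submodule.mem_top
    refine ⟨k, ?_⟩
    rw [← hk]
    congr 1
    ring
  · intro η hη s hs
    obtain ⟨t, ht⟩ : ∃ t : 𝓞 K, s * t - 1 ∈ f := by
      rw [Ideal.eq_top_iff_one, Submodule.mem_sup] at hs
      obtain ⟨a, ha, b, hb, hab⟩ := hs
      rw [Ideal.mem_span_singleton'] at ha
      obtain ⟨t, rfl⟩ := ha
      refine ⟨t, ?_⟩
      have h1 : s * t - 1 = - b := by
        rw [← hab]
        ring
      rw [h1]
      exact f.neg_mem hb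
    have hst : Ideal.Quotient.mk f s * Ideal.Quotient.mk f t = 1 := by
      rw [← map_mul, ← map_one (Ideal.Quotient.mk f)]
      exact (Ideal.Quotient.eq).2 ht
    have hbij : Function.Bijective (fun u : 𝓞 K ⧸ f => Ideal.Quotient.mk f s * u) := by
      refine ⟨?_, ?_⟩
      · intro u v huv
        have h1 : Ideal.Quotient.mk f s * u = Ideal.Quotient.mk f s * v := huv
        calc u = (Ideal.Quotient.mk f s * Ideal.Quotient.mk f t) * u := by rw [hst, one_mul]
          _ = Ideal.Quotient.mk f t * (Ideal.Quotient.mk f s * u) := by ring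
          _ = Ideal.Quotient.mk f t * (Ideal.Quotient.mk f s * v) := by rw [h1]
          _ = (Ideal.Quotient.mk f s * Ideal.Quotient.mk f t) * v := by ring
          _ = v := by rw [hst, one_mul]
      · intro u
        refine ⟨Ideal.Quotient.mk f t * u, ?_⟩
        show Ideal.Quotient.mk f s * (Ideal.Quotient.mk f t * u) = u
        rw [← mul_assoc, hst, one_mul]
    have hkey : gs f F η = F s * gs f F (η * ((s : 𝓞 K) : K)) := by
      unfold gs
      rw [← finsum_comp (g := fun u : 𝓞 K ⧸ f => F (ou u) * et (η * ((ou u : 𝓞 K) : K)))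
        (fun u : 𝓞 K ⧸ f => Ideal.Quotient.mk f s * u) hbij]
      rw [← smul_eq_mul, smul_finsum]
      apply finsum_congr
      intro u
      have hd : ou (Ideal.Quotient.mk f s * u) - s * ou u ∈ f := by
        rw [← Ideal.Quotient.eq, GS0_ou, map_mul, GS0_ou]
      have h2 : ((s * ou u : 𝓞 K) : K) = (s : K) * ((ou u : 𝓞 K) : K) := map_mul (algebraMap (𝓞 K) K) s (ou u)
      rw [hF.per _ _ hd, hF.mul, GS0_et_per f η hη _ _ hd, smul_eq_mul, h2]
      rw [← mul_assoc η, mul_assoc (F s)]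
    rw [hkey, ← mul_assoc]
    have h1 : (starRingEnd ℂ) (F s) * F s = 1 := by
      rw [← Complex.normSq_eq_conj_mul_self, Complex.normSq_eq_norm_sq, hF.unit s hs]
      norm_num
    rw [h1, one_mul]

end Pool.Agent.UN
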