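import Pool.Agent.helper1.UN.SpecU

set_option autoImplicit false

open NumberField Complex MeasureTheory NumberField.Units NumberField.Units.dirichletUnitTheorem

open scoped Classical

namespace Pool.Agent.UN

theorem VQD (hVQB : VQB_stmt) (hVLV : VLV_stmt) : VQD_stmt := by
  intro K _ _ χ τ a F hχ hχ0 hF
  obtain ⟨C, hC1, hC⟩ := (hVQB K τ a).1
  obtain ⟨_, _, _, _, _, hcont, _⟩ := hVLV K
  -- a bound for all `lv l w`
  have hcpt : IsCompact (closure F) := hF.isCompact_closure
  have hb : ∀ w : InfinitePlace K, ∃ R : ℝ, ∀ l ∈ closure F, ‖lv l w‖ ≤ R := fun w =>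
    hcpt.exists_bound_of_continuousOn (hcont w).continuousOn
  choose R hR using hb
  have hR' : ∀ l ∈ F, ∀ w : InfinitePlace K, -(∑ w', |R w'|) ≤ lv l w := by
    intro l hl w
    have h1 : |lv l w| ≤ R w := hR w l (subset_closure hl)
    have h2 : |R w| ≤ ∑ w', |R w'| :=
      Finset.single_le_sum (f := fun w' => |R w'|) (fun i _ => abs_nonneg _) (Finset.mem_univ w)
    have h3 := neg_le_of_abs_le h1
    have h4 := le_abs_self (R w)
    linarith
  refine ⟨Real.exp (-(2 * ∑ w', |R w'|)), C, Real.exp_pos _, hC1, ?_⟩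
  intro ρ l x hρ hl
  by_cases hx : x = 0
  · rw [if_pos hx]
    subst hx
    unfold tq
    rw [Ideal.span_singleton_eq_bot.2 rfl, hχ0, zero_mul, norm_zero]
  · rw [if_neg hx]
    have hxK : (x : K) ≠ 0 := by
      intro h
      exact hx (RingOfIntegers.ext (by simpa using h))
    have hwx : ∀ w : InfinitePlace K, 0 < w (x : K) := fun w => InfinitePlace.pos_iff.2 hxK
    have hu : ∀ w : InfinitePlace K, 0 < (w (x : K)) ^ 2 * Yl ρ l w := by
      intro w
      unfold Yl
      have := hwx w
      positivity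
    unfold tq
    rw [norm_mul]
    have h1 := hC (fun w => (w (x : K)) ^ 2 * Yl ρ l w) hu
    have h2 : Real.exp (-(∑ w : InfinitePlace K, (w.mult : ℝ) * ((w (x : K)) ^ 2 * Yl ρ l w))) ≤
        Real.exp (-(Real.exp (-(2 * ∑ w', |R w'|)) * ρ * Sq x)) := by
      apply Real.exp_le_exp.2
      apply neg_le_neg
      unfold Sq
      rw [Finset.mul_sum]
      apply Finset.sum_le_sum
      intro w _
      have h3 : Real.exp (-(2 * ∑ w', |R w'|)) ≤ Real.exp (2 * lv l w) := by
        apply Real.exp_le_exp.2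
        have := hR' l hl w
        linarith
      unfold Yl
      have h4 : (0 : ℝ) ≤ (w.mult : ℝ) * (w (x : K)) ^ 2 * ρ := by positivity
      nlinarith [mul_le_mul_of_nonneg_left h3 h4]
    calc ‖χ (Ideal.span {x})‖ * ‖QT τ a (fun w => (w (x : K)) ^ 2 * Yl ρ l w)‖
        ≤ 1 * (C * Real.exp (-(∑ w : InfinitePlace K, (w.mult : ℝ) * ((w (x : K)) ^ 2 * Yl ρ l w)))) := by
          apply mul_le_mul (hχ _) h1 (norm_nonneg _) zero_le_one
      _ ≤ C * Real.exp (-(Real.exp (-(2 * ∑ w', |R w'|)) * ρ * Sq x)) := by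
          rw [one_mul]
          exact mul_le_mul_of_nonneg_left h2 (by linarith)

end Pool.Agent.UN
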